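import Pool.Agent.R650.ThreeDim.Fam

/-!
# MP_c03fb1_al: a three-dimensional infinitely based algebra over every infinite field
-/

set_option autoImplicit false

namespace Pool.Agent.Results.MP_c03fb1_al.EveryInfiniteField

universe u

open Pool.Agent.R650.ThreeDim

/-- Over every infinite field `K` (in particular over `ℚ`) there is a three-dimensional
`K`-algebra which is infinitely based. -/
theorem result (K : Type u) [Field K] [Infinite K] :
    ∃ (R : Type u) (_ : NonUnitalNonAssocRing R) (_ : Module K R) (_ : IsScalarTower K R R)
      (_ : SMulCommClass K R R), Module.finrank K R = 3 ∧ InfinitelyBased K R :=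
  ⟨Tri K, inferInstance, inferInstance, inferInstance, inferInstance, tri_finrank K,
    tri_infinitelyBased K⟩

end Pool.Agent.Results.MP_c03fb1_al.EveryInfiniteField
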