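import Pool.Agent.R635.ThreeDimMain

set_option autoImplicit false
set_option linter.unusedSectionVars false

namespace Pool.Agent.Results.MP_c03fb1_al.InfiniteBasis

open Pool.Agent.R635.ThreeDim Finset MvPolynomial

universe u

noncomputable section

variable {K : Type u} [Field K]

/-- The subalgebra of admissible elements of the test algebra. -/
def Bsub (K : Type u) [Field K] [CharP K 2] (n : ℕ) : NonUnitalSubalgebra K (B0 K n) where
  carrier := {b | (∀ k, X k ∣ b.vec k) ∧ (sg b.vec).IsHomogeneous 1}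
  add_mem' := by
    rintro p q ⟨h1, h2⟩ ⟨h3, h4⟩
    refine ⟨fun k => ?_, ?_⟩
    · rw [B0.vec_add]; exact dvd_add (h1 k) (h3 k)
    · rw [B0.vec_add, sg_add]; exact h2.add h4
  zero_mem' := by
    refine ⟨fun k => ?_, ?_⟩
    · rw [B0.vec_zero]; exact dvd_zero _
    · rw [B0.vec_zero, B0.sg_zero]; exact isHomogeneous_zero _ _ _
  smul_mem' := by
    rintro t p ⟨h1, h2⟩
    refine ⟨fun k => ?_, ?_⟩
    · rw [B0.vec_smul, Pi.smul_apply, MvPolynomial.smul_eq_C_mul]
      exact Dvd.dvd.mul_left (h1 k) _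
    · rw [B0.vec_smul, sg_smul, MvPolynomial.smul_eq_C_mul]
      have := (isHomogeneous_C (Fin n) t).mul h2
      rwa [zero_add] at this
  mul_mem' := by
    rintro p q ⟨h1, h2⟩ ⟨h3, h4⟩
    refine ⟨fun k => ?_, ?_⟩
    · rw [B0.vec_mul]
      exact dvd_add (Dvd.dvd.mul_left (h3 k) _) (Dvd.dvd.mul_left (h1 k) _)
    · have : sg (p * q).vec = 0 := by
        rw [B0.vec_mul]
        unfold sg
        rw [Finset.sum_add_distrib, ← Finset.mul_sum, ← Finset.mul_sum]
        rw [mul_comm (∑ k, q.vec k)]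
        exact CharTwo.add_self_eq_zero _
      rw [this]; exact isHomogeneous_zero _ _ _

theorem holds_in_B [Infinite K] [CharP K 2] {n : ℕ} {f : FreeNonUnitalNonAssocAlgebra K ℕ}
    (hid : IsIdentity K (Q3 K) f) (hf : ∀ W ∈ f.coeff.support, W.length < n) :
    IsIdentity K (Bsub K n) f := by
  intro v
  have h := map_lift (NonUnitalSubalgebraClass.subtype (Bsub K n)) v f
  have h2 := main_lemma hid hf (fun i => (v i : B0 K n)) (fun i => (v i).2)
  apply Subtype.ext
  rw [ZeroMemClass.coe_zero, ← h2]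
  exact h

/-- left normed word `x_i x_j x_4 ... x_{m+3}` -/
def lw (K : Type u) [Field K] (i j : ℕ) : ℕ → FreeNonUnitalNonAssocAlgebra K ℕ
  | 0 => FreeNonUnitalNonAssocAlgebra.of K i * FreeNonUnitalNonAssocAlgebra.of K j
  | m + 1 => lw K i j m * FreeNonUnitalNonAssocAlgebra.of K (4 + m)

/-- the three term identity -/
def pl (K : Type u) [Field K] (m : ℕ) : FreeNonUnitalNonAssocAlgebra K ℕ :=
  lw K 0 1 m * (FreeNonUnitalNonAssocAlgebra.of K 2 * FreeNonUnitalNonAssocAlgebra.of K 3) +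
  lw K 0 2 m * (FreeNonUnitalNonAssocAlgebra.of K 1 * FreeNonUnitalNonAssocAlgebra.of K 3) +
  lw K 0 3 m * (FreeNonUnitalNonAssocAlgebra.of K 1 * FreeNonUnitalNonAssocAlgebra.of K 2)

theorem lift_lw (v : ℕ → Q3 K) (i j m : ℕ) :
    (FreeNonUnitalNonAssocAlgebra.lift K v (lw K i j m)).pa = 0 ∧
    (FreeNonUnitalNonAssocAlgebra.lift K v (lw K i j m)).px =
      ((v i).pa * (v j).px + (v j).pa * (v i).px) * ∏ t ∈ range m, (v (4 + t)).pa := by
  induction m with
  | zero => simp [lw]
  | succ m ih =>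
    rw [lw, map_mul, Q3.pa_mul, Q3.px_mul, ih.1, ih.2, prod_range_succ,
      FreeNonUnitalNonAssocAlgebra.lift_of_apply]
    exact ⟨rfl, by ring⟩

theorem pl_identity [CharP K 2] (m : ℕ) : IsIdentity K (Q3 K) (pl K m) := by
  intro v
  have two : (2 : K) = 0 := CharTwo.two_eq_zero
  apply Q3.ext'
  · simp [pl]
  · simp [pl, (lift_lw v 0 1 m).1, (lift_lw v 0 2 m).1, (lift_lw v 0 3 m).1]
  · simp only [pl, map_add, map_mul, Q3.pz_add, Q3.pz_mul, Q3.px_mul,
      FreeNonUnitalNonAssocAlgebra.lift_of_apply, (lift_lw v 0 1 m).2, (lift_lw v 0 2 m).2,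
      (lift_lw v 0 3 m).2, Q3.pz_zero]
    linear_combination (∏ t ∈ range m, (v (4 + t)).pa) *
      ((v 0).pa * (v 1).px * (v 2).pa * (v 3).px + (v 0).pa * (v 1).px * (v 3).pa * (v 2).px +
       (v 1).pa * (v 0).px * (v 2).pa * (v 3).px + (v 1).pa * (v 0).px * (v 3).pa * (v 2).px +
       (v 0).pa * (v 2).px * (v 1).pa * (v 3).px + (v 2).pa * (v 0).px * (v 3).pa * (v 1).px) *
        two

/-! ### The identity fails in the test algebra -/

/-- variables, extended by zero -/
def xx (K : Type u) [Field K] (n i : ℕ) : MvPolynomial (Fin n) K :=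
  if h : i < n then X ⟨i, h⟩ else 0

/-- the vector with one entry `c` in position `i` -/
def sgl {n : ℕ} (i : ℕ) (c : MvPolynomial (Fin n) K) : Fin n → MvPolynomial (Fin n) K :=
  fun k => if (k : ℕ) = i then c else 0

theorem sg_sgl {n : ℕ} (i : ℕ) (hi : i < n) (c : MvPolynomial (Fin n) K) :
    sg (sgl i c) = c := by
  unfold sg sgl
  rw [Finset.sum_eq_single ⟨i, hi⟩]
  · simp
  · intro b _ hb
    rw [if_neg]
    intro h
    exact hb (Fin.ext h)
  · intro h; exact absurd (Finset.mem_univ _) h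

theorem sg_sgl_xx {n : ℕ} (i : ℕ) : sg (sgl i (xx K n i)) = xx K n i := by
  by_cases hi : i < n
  · exact sg_sgl i hi _
  · have : xx K n i = 0 := by simp [xx, hi]
    rw [this]
    simp [sg, sgl]

theorem xx_hom {n : ℕ} (i : ℕ) : (xx K n i).IsHomogeneous 1 := by
  unfold xx
  split_ifs
  · exact isHomogeneous_X _ _
  · exact isHomogeneous_zero _ _ _

theorem bf_sgl {n : ℕ} (i k : ℕ) (hi : i < n) (hk : k < n) (c d : MvPolynomial (Fin n) K) :
    bf (sgl i c) (sgl k d) = if i < k then c * d else 0 := by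
  unfold bf sgl
  rw [Finset.sum_eq_single ⟨i, hi⟩]
  · rw [Finset.sum_eq_single ⟨k, hk⟩]
    · simp
    · intro b _ hb
      have : (b : ℕ) ≠ k := fun h => hb (Fin.ext h)
      simp [this]
    · intro h; exact absurd (Finset.mem_univ _) h
  · intro b _ hb
    have : (b : ℕ) ≠ i := fun h => hb (Fin.ext h)
    simp [this]
  · intro h; exact absurd (Finset.mem_univ _) h

/-- the generators -/
def gen (K : Type u) [Field K] (n i : ℕ) : B0 K n := B0.mk (sgl i (xx K n i)) 0

theorem gen_mem [CharP K 2] (n i : ℕ) : gen K n i ∈ Bsub K n := by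
  refine ⟨fun k => ?_, ?_⟩
  · change X k ∣ sgl i (xx K n i) k
    unfold sgl
    split_ifs with h
    · subst h
      simp [xx]
    · exact dvd_zero _
  · change (sg (sgl i (xx K n i))).IsHomogeneous 1
    rw [sg_sgl_xx]; exact xx_hom i

theorem two_term {n : ℕ} [CharP K 2] (i j : ℕ) (hi : i < n) (hj : j < n)
    (c : MvPolynomial (Fin n) K) : sg (sgl i c + sgl j c) = 0 := by
  rw [sg_add, sg_sgl i hi, sg_sgl j hj]
  exact CharTwo.add_self_eq_zero _

theorem vec_gen_mul {n : ℕ} (i j : ℕ) :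
    (gen K n i * gen K n j).vec =
      sgl i (xx K n i * xx K n j) + sgl j (xx K n i * xx K n j) := by
  rw [B0.vec_mul]
  change (fun k => sg (sgl i (xx K n i)) * sgl j (xx K n j) k +
    sg (sgl j (xx K n j)) * sgl i (xx K n i) k) = _
  rw [sg_sgl_xx, sg_sgl_xx]
  funext k
  simp only [sgl, Pi.add_apply]
  split_ifs <;> ring

theorem vec_mul_gen {n : ℕ} [CharP K 2] (i j t : ℕ) (hi : i < n) (hj : j < n)
    (c : MvPolynomial (Fin n) K) (p : B0 K n) (hp : p.vec = sgl i c + sgl j c) :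
    (p * gen K n t).vec = sgl i (c * xx K n t) + sgl j (c * xx K n t) := by
  rw [B0.vec_mul, hp, two_term i j hi hj]
  change (fun k => 0 * sgl t (xx K n t) k +
    sg (sgl t (xx K n t)) * (sgl i c + sgl j c) k) = _
  rw [sg_sgl_xx]
  funext k
  simp only [sgl, Pi.add_apply]
  split_ifs <;> ring

theorem lift_lw_B [CharP K 2] (n i j m : ℕ) (hi : i < n) (hj : j < n) :
    (FreeNonUnitalNonAssocAlgebra.lift K (gen K n) (lw K i j m)).vec =
      sgl i (xx K n i * xx K n j * ∏ t ∈ range m, xx K n (4 + t)) +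
      sgl j (xx K n i * xx K n j * ∏ t ∈ range m, xx K n (4 + t)) := by
  induction m with
  | zero =>
    simp only [lw, map_mul, FreeNonUnitalNonAssocAlgebra.lift_of_apply, prod_range_zero, mul_one]
    exact vec_gen_mul i j
  | succ m ih =>
    rw [lw, map_mul, FreeNonUnitalNonAssocAlgebra.lift_of_apply, prod_range_succ, ← mul_assoc]
    exact vec_mul_gen i j (4 + m) hi hj _ _ ih

theorem prod_xx (n : ℕ) : ∏ t ∈ range n, xx K n t = ∏ k : Fin n, X k := by
  rw [Finset.prod_range]
  refine Finset.prod_congr rfl fun k _ => ?_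
  simp [xx]

theorem tau_prod (n : ℕ) : tau K n (∏ k : Fin n, X k) = 1 := by
  have h : (∏ k : Fin n, X k : MvPolynomial (Fin n) K) = monomial (top n) 1 := by
    rw [MvPolynomial.monomial_eq]
    simp [top, Finsupp.prod_fintype]
  rw [h]
  change coeff (top n) (monomial (top n) (1 : K)) = 1
  rw [coeff_monomial, if_pos rfl]

theorem prod_split (m : ℕ) :
    xx K (4 + m) 0 * xx K (4 + m) 1 * (∏ t ∈ range m, xx K (4 + m) (4 + t)) *
      (xx K (4 + m) 2 * xx K (4 + m) 3) = ∏ k : Fin (4 + m), X k := by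
  rw [← prod_xx, Finset.prod_range_add]
  simp only [prod_range_succ, prod_range_zero, one_mul]
  ring

theorem pl_fails [CharP K 2] (m : ℕ) : ¬ IsIdentity K (Bsub K (4 + m)) (pl K m) := by
  intro h
  have h1 := h (fun i => ⟨gen K (4 + m) i, gen_mem (4 + m) i⟩)
  have h2 := map_lift (NonUnitalSubalgebraClass.subtype (Bsub K (4 + m)))
    (fun i => ⟨gen K (4 + m) i, gen_mem (4 + m) i⟩) (pl K m)
  rw [h1, map_zero] at h2
  have h3 : FreeNonUnitalNonAssocAlgebra.lift K (gen K (4 + m)) (pl K m) = 0 := h2.symm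
  have h4 := congrArg B0.cen h3
  have b0 : 0 < 4 + m := by omega
  have b1 : 1 < 4 + m := by omega
  have b2 : 2 < 4 + m := by omega
  have b3 : 3 < 4 + m := by omega
  set Q : MvPolynomial (Fin (4 + m)) K := ∏ k : Fin (4 + m), X k with hQ
  have hsplit := prod_split (K := K) m
  simp only [pl, map_add, map_mul, B0.cen_add, B0.cen_zero, B0.cen_mul,
    FreeNonUnitalNonAssocAlgebra.lift_of_apply, lift_lw_B _ 0 1 m b0 b1,
    lift_lw_B _ 0 2 m b0 b2, lift_lw_B _ 0 3 m b0 b3, vec_gen_mul,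
    bf_add_left, bf_add_right, bf_sgl _ _ b0 b2, bf_sgl _ _ b0 b3, bf_sgl _ _ b1 b2,
    bf_sgl _ _ b1 b3, bf_sgl _ _ b0 b1, bf_sgl _ _ b2 b1, bf_sgl _ _ b2 b3,
    bf_sgl _ _ b3 b1, bf_sgl _ _ b3 b2] at h4
  norm_num at h4
  have e2 : xx K (4 + m) 0 * xx K (4 + m) 2 * (∏ t ∈ range m, xx K (4 + m) (4 + t)) *
      (xx K (4 + m) 1 * xx K (4 + m) 3) = Q := by
    rw [hQ, ← hsplit]; ring
  have e3 : xx K (4 + m) 0 * xx K (4 + m) 3 * (∏ t ∈ range m, xx K (4 + m) (4 + t)) *
      (xx K (4 + m) 1 * xx K (4 + m) 2) = Q := by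
    rw [hQ, ← hsplit]; ring
  have two : (2 : K) = 0 := CharTwo.two_eq_zero
  rw [hsplit, e2, e3, hQ, tau_prod] at h4
  have : (1 : K) = 0 := by linear_combination h4 - 4 * two
  exact one_ne_zero this

theorem not_finitelyBased (K : Type u) [Field K] [Infinite K] [CharP K 2] :
    ¬ FinitelyBased K (Q3 K) := by
  rintro ⟨S, hS, hid, hcons⟩
  set m : ℕ := hS.toFinset.sup fun s => s.coeff.support.sup FreeMagma.length with hm
  refine pl_fails (K := K) m ?_
  refine hcons (pl K m) (pl_identity m) (Bsub K (4 + m)) fun s hs => holds_in_B (hid s hs) ?_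
  intro W hW
  have h1 : W.length ≤ s.coeff.support.sup FreeMagma.length := Finset.le_sup hW
  have h2 : s.coeff.support.sup FreeMagma.length ≤ m :=
    Finset.le_sup (f := fun s : FreeNonUnitalNonAssocAlgebra K ℕ =>
      s.coeff.support.sup FreeMagma.length) (hS.mem_toFinset.2 hs)
  omega

end

/-- There is a field (any infinite field of characteristic two) over which some algebra of
dimension three (even a commutative one) has no finite basis of polynomial identities. -/
theorem result :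
    (∃ (K : Type) (_ : Field K), Infinite K ∧ CharP K 2) ∧
    ∀ (K : Type u) [Field K] [Infinite K] [CharP K 2],
      ∃ (R : Type u) (_ : NonUnitalNonAssocRing R) (_ : Module K R) (_ : IsScalarTower K R R)
        (_ : SMulCommClass K R R),
        Module.finrank K R = 3 ∧ (∀ p q : R, p * q = q * p) ∧ ¬ FinitelyBased K R := by
  refine ⟨⟨AlgebraicClosure (ZMod 2), inferInstance, IsAlgClosed.instInfinite, ?_⟩, ?_⟩
  · exact charP_of_injective_algebraMap
      (FaithfulSMul.algebraMap_injective (ZMod 2) (AlgebraicClosure (ZMod 2))) 2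
  · intro K _ _ _
    exact ⟨Q3 K, inferInstance, inferInstance, inferInstance, inferInstance,
      Q3.finrank_eq K, Q3.mul_comm', not_finitelyBased K⟩

end Pool.Agent.Results.MP_c03fb1_al.InfiniteBasis
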